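import Pool.Agent.MP_b9de27_nt.Mg.Spec

set_option autoImplicit false

namespace Pool.Agent.Results.MP_b9de27_nt.JointSpectrum

open Pool.Agent.MP_b9de27_nt.Spec

/-- Every point of the Khintchine region is `(w_n(ξ), lambda_n(ξ))` for uncountably many
transcendental real numbers `ξ`. -/
theorem result (n : ℕ) (hn : 2 ≤ n) (w l : ℝ) (hw : (n : ℝ) ≤ w) (hl : 1 / (n : ℝ) ≤ l)
    (h1 : w / (((n : ℝ) - 1) * w + (n : ℝ)) ≤ l) (h2 : l ≤ (w - (n : ℝ) + 1) / (n : ℝ)) :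
    ¬ {ξ : ℝ | Transcendental ℚ ξ ∧ wExp n ξ = (w : EReal) ∧ lamExp n ξ = (l : EReal)}.Countable :=
  spectrum hn hw hl h1 h2

end Pool.Agent.Results.MP_b9de27_nt.JointSpectrum
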